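import Pool.Agent.N606.FP.Dual
import Pool.Agent.R794.FP.FinF
import Pool.Agent.Y383.UF.FML
import Pool.Agent.Y15.UF.Res

/-! # The annihilator of a definable set is definable -/

set_option autoImplicit false

namespace Pool.Agent.N606.FP

open Function
open Pool.Agent.Y924.EL
open Pool.Agent.Y924.UF
open Pool.Agent.R794.FP

/-- `x_z = ∑_(i < k) x_(4 i + 1) x_(4 i)` -/
def sumF : ℕ → ℕ → Fm
  | 0, z => .add z z z
  | k + 1, z => .ex (z + 4) (.ex (z + 8) (.and (.mul (4 * k + 1) (4 * k) (z + 4))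
      (.and (sumF k (z + 8)) (.add (z + 8) (z + 4) z))))

theorem sat_sumF {K : Type} [CommRing K] (O : Set K) (k : ℕ) : ∀ (z : ℕ) (v : ℕ → K), z % 4 = 3 →
    (Sat O (sumF k z) v ↔ v z = ∑ i ∈ Finset.range k, v (4 * i + 1) * v (4 * i)) := by
  induction k with
  | zero =>
    intro z v _
    simp only [sumF, Sat, Finset.range_zero, Finset.sum_empty]
    constructor
    · intro h
      exact left_eq_add.1 h.symm
    · intro h
      rw [h, add_zero]
  | succ k ih =>
    intro z v hz
    have hu : ∀ (a b : K) (j : ℕ), j % 4 ≠ 3 → update (update v (z + 4) a) (z + 8) b j = v j := by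
      intro a b j hj
      rw [update_of_ne (by omega), update_of_ne (by omega)]
    have hz0 : ∀ a b : K, update (update v (z + 4) a) (z + 8) b z = v z := by
      intro a b
      rw [update_of_ne (by omega), update_of_ne (by omega)]
    have h4 : ∀ a b : K, update (update v (z + 4) a) (z + 8) b (z + 4) = a := by
      intro a b
      rw [update_of_ne (by omega), update_self]
    have h8 : ∀ a b : K, update (update v (z + 4) a) (z + 8) b (z + 8) = b := by
      intro a b
      rw [update_self]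
    have hs : ∀ a b : K, ∑ i ∈ Finset.range k, update (update v (z + 4) a) (z + 8) b (4 * i + 1) *
        update (update v (z + 4) a) (z + 8) b (4 * i) =
        ∑ i ∈ Finset.range k, v (4 * i + 1) * v (4 * i) := by
      intro a b
      refine Finset.sum_congr rfl fun i _ => ?_
      rw [hu a b _ (by omega), hu a b _ (by omega)]
    simp only [sumF, Sat]
    constructor
    · rintro ⟨a, b, h1, h2, h3⟩
      rw [ih (z + 8) _ (by omega), h8, hs] at h2
      rw [hu a b _ (by omega), hu a b _ (by omega), h4] at h1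
      rw [h8, h4, hz0] at h3
      rw [Finset.sum_range_succ, ← h3, h2, h1]
    · intro h
      refine ⟨v (4 * k + 1) * v (4 * k), ∑ i ∈ Finset.range k, v (4 * i + 1) * v (4 * i), ?_, ?_,
        ?_⟩
      · rw [hu _ _ _ (by omega), hu _ _ _ (by omega), h4]
      · rw [ih (z + 8) _ (by omega), h8, hs]
      · rw [h8, h4, hz0, h, Finset.sum_range_succ]

/-- the variables of `HF` -/
def rh (j : ℕ) : ℕ := if j = 64 then 3 else if j = 20 then 7 else 4 * j + 11

theorem rh_inj : Injective rh := by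
  intro i j h
  unfold rh at h
  split_ifs at h <;> omega

/-- the constant coefficient of `∑_(i < n) x_(4 i + 1) x_(4 i)` is zero; `x_3` is `t` -/
def pairF (p n : ℕ) : Fm := .ex 7 (.and (sumF n 7) (ren rh (HF p)))

theorem sat_pairF {K : Type} [CommRing K] (O : Set K) (p n : ℕ) (v : ℕ → K) :
    Sat O (pairF p n) v ↔ HH (v 3) p (∑ i ∈ Finset.range n, v (4 * i + 1) * v (4 * i)) := by
  have hu : ∀ (a : K) (j : ℕ), j ≠ 7 → update v 7 a j = v j := fun a j hj => update_of_ne hj _ _
  have hs : ∀ a : K, ∑ i ∈ Finset.range n, update v 7 a (4 * i + 1) * update v 7 a (4 * i) =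
      ∑ i ∈ Finset.range n, v (4 * i + 1) * v (4 * i) := by
    intro a
    refine Finset.sum_congr rfl fun i _ => ?_
    rw [hu a _ (by omega), hu a _ (by omega)]
  have h1 : ∀ a : K, Sat O (ren rh (HF p)) (update v 7 a) ↔ HH (v 3) p a := by
    intro a
    rw [Pool.Agent.Y410.UF.sat_ren O rh_inj, Pool.Agent.Y383.UF.sat_HF]
    have e1 : (update v 7 a ∘ rh) 64 = v 3 := by
      simp [rh]
    have e2 : (update v 7 a ∘ rh) 20 = a := by
      simp [rh]
    rw [e1, e2]
  simp only [pairF, Sat]
  constructor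
  · rintro ⟨a, h2, h3⟩
    rw [sat_sumF O n 7 _ (by norm_num), update_self, hs] at h2
    rw [h1, h2] at h3
    exact h3
  · intro h
    refine ⟨_, ?_, (h1 _).2 h⟩
    rw [sat_sumF O n 7 _ (by norm_num), update_self, hs]

def tg (n i : ℕ) : ℕ := if i < n then 4 * i + 1 else 4 * i + 2

theorem tg_inj (n : ℕ) : Injective (tg n) := by
  intro i j h
  unfold tg at h
  split_ifs at h <;> omega

def sg (n j : ℕ) : ℕ := if j % 4 = 0 ∧ j / 4 < n then j / 4 else n + j

theorem sg_inj (n : ℕ) : Injective (sg n) := by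
  intro i j h
  unfold sg at h
  split_ifs at h <;> omega

def xs (n : ℕ) : List ℕ := (List.range n).map fun i => 4 * i + 1

theorem mem_xs (n j : ℕ) : j ∈ xs n ↔ j % 4 = 1 ∧ j / 4 < n := by
  unfold xs
  simp only [List.mem_map, List.mem_range]
  constructor
  · rintro ⟨i, hi, rfl⟩
    omega
  · rintro ⟨h1, h2⟩
    exact ⟨j / 4, h2, by omega⟩

/-- the annihilator -/
def annF (p n : ℕ) (φ : Fm) : Fm :=
  ren (sg n) (.neg (exs (xs n) (.and (ren (tg n) φ) (.neg (pairF p n)))))

/-- the parameters -/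
def parA {K : Type} (n : ℕ) (t : K) (v : ℕ → K) (m : ℕ) : K :=
  if (m - n) % 4 = 2 then v ((m - n) / 4) else t

/-- the assignment which gives `x_0, ..., x_(n-1)` the values `x` -/
def ovx {K : Type} {n : ℕ} (x : Fin n → K) (v : ℕ → K) (i : ℕ) : K :=
  if h : i < n then x ⟨i, h⟩ else v i

theorem sat_annF {K : Type} [CommRing K] (O : Set K) (p n : ℕ) (φ : Fm) (t : K) (v : ℕ → K)
    (y : Fin n → K) :
    Sat O (annF p n φ) (ovx y (parA n t v)) ↔
      ∀ x : Fin n → K, Sat O φ (ovx x v) → HH t p (∑ i, x i * y i) := by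
  have hy : ∀ j, (ovx y (parA n t v) ∘ sg n) j =
      if h : j % 4 = 0 ∧ j / 4 < n then y ⟨j / 4, h.2⟩ else if j % 4 = 2 then v (j / 4) else t := by
    intro j
    simp only [comp_apply, sg, ovx]
    by_cases h : j % 4 = 0 ∧ j / 4 < n
    · simp [h]
    · have h1 : ¬ (n + j < n) := by omega
      simp only [if_neg h, dif_neg h, dif_neg h1, parA]
      rw [show n + j - n = j by omega]
  have h1 : ∀ f : ℕ → K, ovr (ovx y (parA n t v) ∘ sg n) f (xs n) ∘ tg n =
      ovx (fun i : Fin n => f (4 * i + 1)) v := by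
    intro f
    funext i
    simp only [comp_apply, ovr, mem_xs, tg, ovx]
    by_cases h : i < n
    · have h2 : (4 * i + 1) % 4 = 1 ∧ (4 * i + 1) / 4 < n := by omega
      simp only [if_pos h, dif_pos h, if_pos h2]
    · have h2 : ¬ ((4 * i + 2) % 4 = 1 ∧ (4 * i + 2) / 4 < n) := by omega
      simp only [if_neg h, dif_neg h, if_neg h2]
      have h3 := hy (4 * i + 2)
      have h4 : ¬ ((4 * i + 2) % 4 = 0 ∧ (4 * i + 2) / 4 < n) := by omega
      have h5 : (4 * i + 2) % 4 = 2 := by omega
      rw [dif_neg h4, if_pos h5] at h3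
      simp only [comp_apply, ovx] at h3
      rw [h3]
      congr 1
      omega
  have h2 : ∀ f : ℕ → K, Sat O (pairF p n) (ovr (ovx y (parA n t v) ∘ sg n) f (xs n)) ↔
      HH t p (∑ i : Fin n, f (4 * i + 1) * y i) := by
    intro f
    rw [sat_pairF]
    have e1 : ovr (ovx y (parA n t v) ∘ sg n) f (xs n) 3 = t := by
      have h3 : ¬ (3 ∈ xs n) := by
        rw [mem_xs]
        omega
      rw [ovr, if_neg h3, hy, dif_neg (by omega), if_neg (by omega)]
    have e2 : ∑ i ∈ Finset.range n, ovr (ovx y (parA n t v) ∘ sg n) f (xs n) (4 * i + 1) *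
        ovr (ovx y (parA n t v) ∘ sg n) f (xs n) (4 * i) = ∑ i : Fin n, f (4 * i + 1) * y i := by
      rw [Finset.sum_range]
      refine Finset.sum_congr rfl fun i _ => ?_
      have h3 : 4 * (i : ℕ) + 1 ∈ xs n := by
        rw [mem_xs]
        have := i.2
        omega
      have h4 : ¬ (4 * (i : ℕ) ∈ xs n) := by
        rw [mem_xs]
        omega
      have h5 : (4 * (i : ℕ)) % 4 = 0 ∧ (4 * (i : ℕ)) / 4 < n := by
        have := i.2
        omega
      rw [ovr, if_pos h3, ovr, if_neg h4, hy, dif_pos h5]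
      congr 2
      exact Fin.ext (by simp)
    rw [e1, e2]
  rw [annF, Pool.Agent.Y410.UF.sat_ren O (sg_inj n)]
  simp only [Sat, sat_exs]
  push Not
  constructor
  · intro h x hx
    have h3 := h (fun j => if h : j / 4 < n then x ⟨j / 4, h⟩ else 0) (by
      rw [Pool.Agent.Y410.UF.sat_ren O (tg_inj n), h1]
      convert hx using 2
      funext i
      have h4 : (4 * (i : ℕ) + 1) / 4 = i := by omega
      simp [h4])
    rw [h2] at h3
    convert h3 using 3 with i
    have h4 : (4 * (i : ℕ) + 1) / 4 = i := by omega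
    simp [h4]
  · intro h f hf
    rw [Pool.Agent.Y410.UF.sat_ren O (tg_inj n), h1] at hf
    rw [h2]
    exact h _ hf

section

variable {p : ℕ} [Fact p.Prime]

/-- the set defined by a formula with parameters -/
def DS (P : Set (LaurentSeries (ZMod p))) (φ : Fm) (n : ℕ) (v : ℕ → LaurentSeries (ZMod p)) :
    Set (Fin n → LaurentSeries (ZMod p)) := {x | Sat P φ (ovx x v)}

/-- `t` -/
noncomputable def tt (p : ℕ) [Fact p.Prime] : LaurentSeries (ZMod p) :=
  HahnSeries.single (1 : ℤ) (1 : ZMod p)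

theorem DS_annF (P : Set (LaurentSeries (ZMod p))) (φ : Fm) (n : ℕ)
    (v : ℕ → LaurentSeries (ZMod p)) :
    DS P (annF p n φ) n (parA n (tt p) v) =
      (Ann (DS P φ n v) : Set (Fin n → LaurentSeries (ZMod p))) := by
  ext y
  rw [SetLike.mem_coe, mem_Ann]
  change Sat P (annF p n φ) (ovx y (parA n (tt p) v)) ↔ _
  rw [sat_annF]
  refine forall_congr' fun x => ?_
  have h1 := Pool.Agent.Y15.UF.t_RES p (∑ i, x i * y i)
  exact imp_congr Iff.rfl h1

theorem DS_gen (P : Set (LaurentSeries (ZMod p))) (φ : Fm) (n : ℕ)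
    (v : ℕ → LaurentSeries (ZMod p)) :
    DS P (annF p n (annF p n φ)) n (parA n (tt p) (parA n (tt p) v)) =
      (Cl (AddSubgroup.closure (DS P φ n v)) : Set (Fin n → LaurentSeries (ZMod p))) := by
  rw [DS_annF, DS_annF, ann_ann]

/-- finite sets are definable -/
theorem DS_fin (n : ℕ) (S : Set (Fin n → LaurentSeries (ZMod p))) (hS : S.Finite) :
    ∃ (φ : Fm) (v : ℕ → LaurentSeries (ZMod p)), ∀ P : Set (LaurentSeries (ZMod p)),
      DS P φ n v = S := by
  obtain ⟨l, rfl⟩ : ∃ l : List (Fin n → LaurentSeries (ZMod p)), S = {x | x ∈ l} :=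
    ⟨hS.toFinset.toList, by ext; simp⟩
  refine ⟨.neg (ands ((List.range l.length).map fun k =>
    .neg (ands ((List.range n).map fun i => .eq i (n + (k * n + i)))))),
    fun m => if h' : (m - n) % n < n then (l.getD ((m - n) / n) 0) ⟨(m - n) % n, h'⟩ else 0,
    fun P => ?_⟩
  have key : ∀ (x : Fin n → LaurentSeries (ZMod p)) (k i : ℕ) (hi : i < n),
      (Sat P (.eq i (n + (k * n + i))) (ovx x fun m => if h' : (m - n) % n < n then
        (l.getD ((m - n) / n) 0) ⟨(m - n) % n, h'⟩ else 0) ↔ x ⟨i, hi⟩ = (l.getD k 0) ⟨i, hi⟩) := by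
    intro x k i hi
    have hn : 0 < n := by omega
    have h3 : ¬ (n + (k * n + i) < n) := by omega
    have h4 : n + (k * n + i) - n = k * n + i := by omega
    have h5 : (k * n + i) / n = k := by
      rw [mul_comm, Nat.mul_add_div hn, Nat.div_eq_of_lt hi, add_zero]
    have h6 : (k * n + i) % n = i := by
      rw [mul_comm, Nat.mul_add_mod, Nat.mod_eq_of_lt hi]
    simp only [Sat, ovx, hi, dite_true, dif_neg h3]
    have h7 : (n + (k * n + i) - n) % n < n := Nat.mod_lt _ hn
    rw [dif_pos h7]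
    have h8 : (⟨(n + (k * n + i) - n) % n, h7⟩ : Fin n) = ⟨i, hi⟩ := Fin.ext (by
      simp only [h4, h6])
    rw [h8, h4, h5]
  ext x
  change Sat P _ (ovx x _) ↔ x ∈ l
  simp only [Sat, sat_ands, List.mem_map, List.mem_range]
  push Not
  constructor
  · rintro ⟨_, ⟨k, hk, rfl⟩, h⟩
    simp only [Sat, not_not, sat_ands, List.mem_map, List.mem_range] at h
    have h1 : x = l.getD k 0 := by
      funext i
      exact (key x k i i.2).1 (h _ ⟨i, i.2, rfl⟩)
    rw [h1, List.getD_eq_getElem _ _ hk]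
    exact List.getElem_mem hk
  · intro hx
    obtain ⟨k, hk, rfl⟩ := List.mem_iff_getElem.1 hx
    refine ⟨_, ⟨k, hk, rfl⟩, ?_⟩
    simp only [Sat, not_not, sat_ands, List.mem_map, List.mem_range]
    rintro _ ⟨i, hi, rfl⟩
    refine (key _ k i hi).2 ?_
    rw [List.getD_eq_getElem _ _ hk]

end

end Pool.Agent.N606.FP
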