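import Mathlib
import Pool.Agent.R794.FP.Baire

/-! # Residue duality for closed subgroups of `F_p((t)) ^ n` -/

set_option autoImplicit false

namespace Pool.Agent.N606.FP

open Pool.Agent.R794.FP Pool.Agent.Y924.UF

variable {p : ℕ} [Fact p.Prime] {n : ℕ}

/-- the pairing: the constant coefficient of `∑ x_i y_i` -/
noncomputable def pr (x y : Fin n → LaurentSeries (ZMod p)) : ZMod p := (∑ i, x i * y i).coeff 0

theorem pr_comm (x y : Fin n → LaurentSeries (ZMod p)) : pr x y = pr y x := by
  unfold pr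
  congr 1
  exact Finset.sum_congr rfl fun i _ => mul_comm _ _

theorem pr_add (x x' y : Fin n → LaurentSeries (ZMod p)) : pr (x + x') y = pr x y + pr x' y := by
  unfold pr
  rw [← HahnSeries.coeff_add, ← Finset.sum_add_distrib]
  congr 1
  exact Finset.sum_congr rfl fun i _ => by rw [Pi.add_apply, add_mul]

theorem pr_zero (y : Fin n → LaurentSeries (ZMod p)) : pr 0 y = 0 := by
  simp [pr]

theorem pr_neg (x y : Fin n → LaurentSeries (ZMod p)) : pr (-x) y = - pr x y := by
  have h := pr_add (-x) x y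
  rw [neg_add_cancel, pr_zero] at h
  exact eq_neg_of_add_eq_zero_left h.symm

theorem pr_sub (x x' y : Fin n → LaurentSeries (ZMod p)) : pr (x - x') y = pr x y - pr x' y := by
  rw [sub_eq_add_neg, pr_add, pr_neg, sub_eq_add_neg]

/-- the annihilator -/
noncomputable def Ann (X : Set (Fin n → LaurentSeries (ZMod p))) :
    AddSubgroup (Fin n → LaurentSeries (ZMod p)) where
  carrier := {y | ∀ x ∈ X, pr x y = 0}
  zero_mem' := fun x _ => by rw [pr_comm, pr_zero]
  add_mem' := fun {y y'} h h' x hx => by rw [pr_comm, pr_add, pr_comm y, pr_comm y', h x hx, h' x hx, add_zero]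
  neg_mem' := fun {y} h x hx => by rw [pr_comm, pr_neg, pr_comm y, h x hx, neg_zero]

theorem mem_Ann (X : Set (Fin n → LaurentSeries (ZMod p))) (y : Fin n → LaurentSeries (ZMod p)) :
    y ∈ Ann X ↔ ∀ x ∈ X, pr x y = 0 := Iff.rfl

/-- the closure of a subgroup -/
noncomputable def Cl (G : AddSubgroup (Fin n → LaurentSeries (ZMod p))) :
    AddSubgroup (Fin n → LaurentSeries (ZMod p)) where
  carrier := {x | ∀ r : ℤ, ∃ a ∈ G, NB r a x}
  zero_mem' := fun r => ⟨0, G.zero_mem, NB.rfl⟩
  add_mem' := fun {x x'} h h' r => by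
    obtain ⟨a, ha, h1⟩ := h r
    obtain ⟨a', ha', h2⟩ := h' r
    refine ⟨a + a', G.add_mem ha ha', fun i k hk => ?_⟩
    simp only [Pi.add_apply, HahnSeries.coeff_add]
    rw [h1 i k hk, h2 i k hk]
  neg_mem' := fun {x} h r => by
    obtain ⟨a, ha, h1⟩ := h r
    refine ⟨-a, G.neg_mem ha, fun i k hk => ?_⟩
    simp only [Pi.neg_apply, HahnSeries.coeff_neg]
    rw [h1 i k hk]

theorem mem_Cl (G : AddSubgroup (Fin n → LaurentSeries (ZMod p)))
    (x : Fin n → LaurentSeries (ZMod p)) : x ∈ Cl G ↔ ∀ r : ℤ, ∃ a ∈ G, NB r a x := Iff.rfl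

theorem coeff_mul_zero (r : ℤ) (z y : LaurentSeries (ZMod p)) (hz : ∀ k < r, z.coeff k = 0)
    (hy : ∀ k ≤ -r, y.coeff k = 0) : (z * y).coeff 0 = 0 := by
  rw [HahnSeries.coeff_mul]
  refine Finset.sum_eq_zero fun ij hij => ?_
  rw [Finset.mem_antidiagonal] at hij
  obtain ⟨h1, h2, h3⟩ := hij
  rw [HahnSeries.mem_support] at h1 h2
  have h4 : r ≤ ij.1 := by
    by_contra h
    exact h1 (hz _ (not_le.1 h))
  have h5 : -r < ij.2 := by
    by_contra h
    exact h2 (hy _ (not_lt.1 h))
  omega

theorem exists_low (y : LaurentSeries (ZMod p)) : ∃ N : ℤ, ∀ k ≤ N, y.coeff k = 0 := by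
  by_cases h : y = 0
  · exact ⟨0, fun k _ => by rw [h]; rfl⟩
  · exact ⟨y.order - 1, fun k hk => HahnSeries.coeff_eq_zero_of_lt_order (by omega)⟩

theorem exists_low' (y : Fin n → LaurentSeries (ZMod p)) :
    ∃ N : ℤ, ∀ i, ∀ k ≤ N, (y i).coeff k = 0 := by
  choose N hN using fun i => exists_low (y i)
  obtain ⟨M, hM⟩ := (Set.finite_range N).bddBelow
  exact ⟨M, fun i k hk => hN i k (hk.trans (hM ⟨i, rfl⟩))⟩

theorem pr_far (r : ℤ) (z y : Fin n → LaurentSeries (ZMod p)) (hz : ∀ i, ∀ k < r, (z i).coeff k = 0)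
    (hy : ∀ i, ∀ k ≤ -r, (y i).coeff k = 0) : pr z y = 0 := by
  unfold pr
  rw [HahnSeries.coeff_sum]
  exact Finset.sum_eq_zero fun i _ => coeff_mul_zero r _ _ (hz i) (hy i)

/-- a functional which vanishes on a ball is given by an element -/
theorem repr_one (r : ℤ) (g : LaurentSeries (ZMod p) →ₗ[ZMod p] ZMod p)
    (hg : ∀ z : LaurentSeries (ZMod p), (∀ k < r, z.coeff k = 0) → g z = 0) :
    ∃ y : LaurentSeries (ZMod p), ∀ z, g z = (z * y).coeff 0 := by
  have hb : BddBelow (Function.support fun m : ℤ =>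
      if -r < m then g (HahnSeries.single (-m) (1 : ZMod p)) else 0) := by
    refine ⟨-r, fun m hm => ?_⟩
    by_contra h
    exact hm (if_neg fun h' => h h'.le)
  set y : LaurentSeries (ZMod p) := HahnSeries.ofSuppBddBelow _ hb with hy
  have hyc : ∀ m : ℤ, y.coeff m = if -r < m then g (HahnSeries.single (-m) (1 : ZMod p)) else 0 := by
    intro m
    rw [hy, HahnSeries.coeff_ofSuppBddBelow]
  have hs : ∀ (k : ℤ) (a : ZMod p), k < r → g (HahnSeries.single k a) =
      (HahnSeries.single k a * y).coeff 0 := by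
    intro k a hk
    have h1 : (HahnSeries.single k a : LaurentSeries (ZMod p)) =
        a • HahnSeries.single k (1 : ZMod p) := by
      ext m
      rw [HahnSeries.coeff_smul, HahnSeries.coeff_single, HahnSeries.coeff_single]
      split_ifs <;> simp
    have h2 : (HahnSeries.single k a * y).coeff 0 = a * y.coeff (-k) := by
      have h3 := HahnSeries.coeff_single_mul_add (r := a) (x := y) (a := -k) (b := k)
      rwa [neg_add_cancel] at h3
    rw [h2, hyc, if_pos (by omega), neg_neg, h1, map_smul, smul_eq_mul]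
  refine ⟨y, fun z => ?_⟩
  obtain ⟨N, hN⟩ := exists_low z
  -- the tail
  set s : LaurentSeries (ZMod p) := ∑ k ∈ Finset.Ico N r, HahnSeries.single k (z.coeff k) with hsd
  have hsc : ∀ m < r, s.coeff m = z.coeff m := by
    intro m hm
    rw [hsd, HahnSeries.coeff_sum]
    by_cases h : N ≤ m
    · rw [Finset.sum_eq_single m]
      · rw [HahnSeries.coeff_single_same]
      · intro k _ hk
        exact HahnSeries.coeff_single_of_ne (Ne.symm hk)
      · intro h'
        exact absurd (Finset.mem_Ico.2 ⟨h, hm⟩) h'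
    · rw [hN m (by omega)]
      refine Finset.sum_eq_zero fun k hk => ?_
      have := (Finset.mem_Ico.1 hk).1
      exact HahnSeries.coeff_single_of_ne (by omega)
  have htail : ∀ k < r, (z - s).coeff k = 0 := fun k hk => by
    rw [HahnSeries.coeff_sub, hsc k hk, sub_self]
  have h1 : g z = g s := by
    have := hg (z - s) htail
    rw [map_sub] at this
    exact sub_eq_zero.1 this
  have h2 : (z * y).coeff 0 = (s * y).coeff 0 := by
    have h3 : ((z - s) * y).coeff 0 = 0 := coeff_mul_zero r _ _ htail fun k hk => by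
      rw [hyc, if_neg (by omega)]
    rw [sub_mul, HahnSeries.coeff_sub] at h3
    exact sub_eq_zero.1 h3
  rw [h1, h2, hsd, map_sum, Finset.sum_mul, HahnSeries.coeff_sum]
  exact Finset.sum_congr rfl fun k hk => hs k _ (Finset.mem_Ico.1 hk).2

theorem repr_many (r : ℤ) (g : (Fin n → LaurentSeries (ZMod p)) →ₗ[ZMod p] ZMod p)
    (hg : ∀ z : Fin n → LaurentSeries (ZMod p), (∀ i, ∀ k < r, (z i).coeff k = 0) → g z = 0) :
    ∃ y : Fin n → LaurentSeries (ZMod p), ∀ z, g z = pr z y := by
  have h0 : ∀ i : Fin n, ∃ y : LaurentSeries (ZMod p), ∀ z,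
      (g ∘ₗ LinearMap.single (ZMod p) (fun _ => LaurentSeries (ZMod p)) i) z = (z * y).coeff 0 := by
    intro i
    refine repr_one r _ fun z hz => ?_
    refine hg _ fun j k hk => ?_
    by_cases h : j = i
    · subst h
      simp [hz k hk]
    · simp [h]
  choose y hy using h0
  refine ⟨y, fun z => ?_⟩
  have h1 : z = ∑ i, Pi.single i (z i) := (Finset.univ_sum_single z).symm
  conv_lhs => rw [h1]
  rw [map_sum, pr, HahnSeries.coeff_sum]
  refine Finset.sum_congr rfl fun i _ => ?_
  have := hy i (z i)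
  simpa using this

/-- **the double annihilator is the closure** -/
theorem ann_ann (X : Set (Fin n → LaurentSeries (ZMod p))) :
    Ann (Ann X : Set (Fin n → LaurentSeries (ZMod p))) = Cl (AddSubgroup.closure X) := by
  have hc : ∀ a ∈ AddSubgroup.closure X, ∀ y ∈ Ann X, pr a y = 0 := by
    intro a ha y hy
    induction ha using AddSubgroup.closure_induction with
    | mem x hx => exact hy x hx
    | zero => exact pr_zero y
    | add x z _ _ h1 h2 => rw [pr_add, h1, h2, add_zero]
    | neg x _ h1 => rw [pr_neg, h1, neg_zero]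
  ext x
  constructor
  · intro hx
    by_contra hn
    rw [mem_Cl] at hn
    push Not at hn
    obtain ⟨r, hr⟩ := hn
    -- the ball
    let B : AddSubgroup (Fin n → LaurentSeries (ZMod p)) :=
      { carrier := {z | ∀ i, ∀ k < r, (z i).coeff k = 0}
        zero_mem' := fun i k _ => rfl
        add_mem' := fun {a b} ha hb i k hk => by
          rw [Pi.add_apply, HahnSeries.coeff_add, ha i k hk, hb i k hk, add_zero]
        neg_mem' := fun {a} ha i k hk => by
          rw [Pi.neg_apply, HahnSeries.coeff_neg, ha i k hk, neg_zero] }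
    let U : Submodule (ZMod p) (Fin n → LaurentSeries (ZMod p)) :=
      AddSubgroup.toZModSubmodule p (AddSubgroup.closure X ⊔ B)
    have hxU : x ∉ U := by
      intro h
      have h' : x ∈ AddSubgroup.closure X ⊔ B := h
      rw [AddSubgroup.mem_sup] at h'
      obtain ⟨a, ha, b, hb, hab⟩ := h'
      refine hr a ha fun i k hk => ?_
      have hb' : (b i).coeff k = 0 := hb i k hk
      rw [← hab, Pi.add_apply, HahnSeries.coeff_add, hb', add_zero]
    obtain ⟨f, hf, hU⟩ := Submodule.exists_le_ker_of_notMem hxU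
    obtain ⟨y, hy⟩ := repr_many r f fun z hz => by
      have hz' : z ∈ U := by
        have : z ∈ AddSubgroup.closure X ⊔ B := AddSubgroup.mem_sup_right hz
        exact this
      exact hU hz'
    have hyA : y ∈ Ann X := by
      intro a ha
      rw [← hy]
      have ha' : a ∈ U := by
        have : a ∈ AddSubgroup.closure X ⊔ B :=
          AddSubgroup.mem_sup_left (AddSubgroup.subset_closure ha)
        exact this
      exact hU ha'
    have h1 := hx y hyA
    rw [pr_comm, ← hy] at h1
    exact hf h1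
  · intro hx y hy
    obtain ⟨N, hN⟩ := exists_low' y
    obtain ⟨a, ha, h1⟩ := hx (-N)
    have h2 : pr (x - a) y = 0 := by
      refine pr_far (-N) _ _ (fun i k hk => ?_) fun i k hk => hN i k (by omega)
      rw [Pi.sub_apply, HahnSeries.coeff_sub, ← h1 i k hk, sub_self]
    rw [pr_sub, hc a ha y hy, sub_zero] at h2
    rw [pr_comm]
    exact h2

theorem pr_nondeg (y : Fin n → LaurentSeries (ZMod p)) (h : ∀ x, pr x y = 0) : y = 0 := by
  funext i
  ext k
  have h1 := h (Pi.single i (HahnSeries.single (-k) (1 : ZMod p)))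
  unfold pr at h1
  rw [Finset.sum_eq_single i] at h1
  · rw [Pi.single_eq_same] at h1
    have h3 := HahnSeries.coeff_single_mul_add (r := (1 : ZMod p)) (x := y i) (a := k) (b := -k)
    rw [add_neg_cancel, one_mul] at h3
    rw [← h3, h1]
    rfl
  · intro j _ hj
    rw [Pi.single_eq_of_ne hj, zero_mul]
  · intro h2
    exact absurd (Finset.mem_univ i) h2

/-- the annihilator of a cocompact group is discrete -/
theorem ann_discrete (X : Set (Fin n → LaurentSeries (ZMod p))) (r : ℤ)
    (h : ∀ x, ∃ a ∈ Cl (AddSubgroup.closure X), NB r a x) (y : Fin n → LaurentSeries (ZMod p))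
    (hy : y ∈ Ann X) (hy0 : ∀ i, ∀ k ≤ -r, (y i).coeff k = 0) : y = 0 := by
  refine pr_nondeg y fun x => ?_
  obtain ⟨a, ha, h1⟩ := h x
  rw [← ann_ann] at ha
  have h2 : pr (x - a) y = 0 := by
    refine pr_far r _ _ (fun i k hk => ?_) hy0
    rw [Pi.sub_apply, HahnSeries.coeff_sub, ← h1 i k hk, sub_self]
  rw [pr_sub, pr_comm a, ha y hy, sub_zero] at h2
  exact h2

/-- the index -/
theorem index_le (X : Set (Fin n → LaurentSeries (ZMod p))) (N : ℕ)
    (h : (Ann X : Set (Fin n → LaurentSeries (ZMod p))).Finite)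
    (hN : (Ann X : Set (Fin n → LaurentSeries (ZMod p))).ncard ≤ N) :
    (Cl (AddSubgroup.closure X)).index ≠ 0 ∧ (Cl (AddSubgroup.closure X)).index ≤ p ^ N := by
  have hf : Finite ↥(Ann X) := h
  let φ : (Fin n → LaurentSeries (ZMod p)) →+ (↥(Ann X) → ZMod p) :=
    { toFun := fun x y => pr x y.1
      map_zero' := by funext y; exact pr_zero _
      map_add' := fun x x' => by funext y; exact pr_add _ _ _ }
  have hk : φ.ker = Cl (AddSubgroup.closure X) := by
    rw [← ann_ann]
    ext x
    rw [AddMonoidHom.mem_ker]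
    constructor
    · intro h1 y hy
      rw [pr_comm]
      exact congrFun h1 ⟨y, hy⟩
    · intro h1
      funext y
      exact (pr_comm _ _).trans (h1 y.1 y.2)
  have hf2 : Finite (↥(Ann X) → ZMod p) := Pi.finite
  have h1 : (Cl (AddSubgroup.closure X)).index = Nat.card φ.range := by
    rw [← hk, AddSubgroup.index_ker]
  rw [h1]
  refine ⟨Nat.card_pos.ne', ?_⟩
  calc Nat.card φ.range ≤ Nat.card (↥(Ann X) → ZMod p) :=
        Nat.card_le_card_of_injective _ Subtype.val_injective
    _ = p ^ (Ann X : Set (Fin n → LaurentSeries (ZMod p))).ncard := by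
        rw [Nat.card_fun, Nat.card_zmod]
        rfl
    _ ≤ p ^ N := Nat.pow_le_pow_right (Fact.out : p.Prime).pos hN

/-- a group of finite index has a finite annihilator -/
theorem ann_finite (A : AddSubgroup (Fin n → LaurentSeries (ZMod p))) (h : A.index ≠ 0) :
    (Ann (A : Set (Fin n → LaurentSeries (ZMod p))) :
      Set (Fin n → LaurentSeries (ZMod p))).Finite := by
  have hA : A.FiniteIndex := ⟨h⟩
  have hf1 : Finite ((Fin n → LaurentSeries (ZMod p)) ⧸ A) := AddSubgroup.finite_quotient_of_finiteIndex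
  have hf2 : Finite (((Fin n → LaurentSeries (ZMod p)) ⧸ A) → ZMod p) := Pi.finite
  refine Set.Finite.of_injOn (f := fun y (q : (Fin n → LaurentSeries (ZMod p)) ⧸ A) =>
    pr q.out y) (t := Set.univ) (fun _ _ => Set.mem_univ _) ?_ Set.finite_univ
  intro y hy y' hy' hyy
  have h1 : y - y' = 0 := by
    refine pr_nondeg _ fun x => ?_
    have h2 := congrFun hyy (QuotientAddGroup.mk x)
    simp only at h2
    set o : Fin n → LaurentSeries (ZMod p) :=
      (QuotientAddGroup.mk x : (Fin n → LaurentSeries (ZMod p)) ⧸ A).out with ho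
    have h3 : x - o ∈ A := by
      have h4 : (QuotientAddGroup.mk o : (Fin n → LaurentSeries (ZMod p)) ⧸ A) =
          QuotientAddGroup.mk x := by
        rw [ho]
        exact Quotient.out_eq' _
      have h5 := QuotientAddGroup.eq.1 h4
      rwa [add_comm, ← sub_eq_add_neg] at h5
    have h4 : pr (x - o) y = 0 := hy _ h3
    have h5 : pr (x - o) y' = 0 := hy' _ h3
    rw [pr_sub] at h4 h5
    rw [pr_comm, pr_sub, pr_comm y, pr_comm y', sub_eq_zero.1 h4, sub_eq_zero.1 h5, h2, sub_self]
  exact sub_eq_zero.1 h1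

end Pool.Agent.N606.FP
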