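import Pool.Agent.N606.FP.Exp

/-! # The sets of the series whose part of positive exponents lies in a closed set -/

set_option autoImplicit false

namespace Pool.Agent.N606.FP

open Function
open Pool.Agent.Y924.EL
open Pool.Agent.Y924.UF
open Pool.Agent.R794.FP (NB single_ne near_of_NB near_single)
open Pool.Agent.Results.MP_db9079_lc.UniformFiniteness
open Pool.Agent.Results.MP_db9079_lc.LocallyFiniteValues

variable {p : ℕ} [Fact p.Prime]

/-- the `x` such that the part of `x` of positive exponents is in `C` -/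
def PosIn (C : Set (LaurentSeries (ZMod p))) : Set (LaurentSeries (ZMod p)) :=
  {x | ∃ c ∈ C, ∀ k : ℤ, 0 < k → x.coeff k = c.coeff k}

/-- the part of positive exponents -/
theorem exists_pos (x : LaurentSeries (ZMod p)) : ∃ c : LaurentSeries (ZMod p),
    (∀ k : ℤ, 0 < k → c.coeff k = x.coeff k) ∧ ∀ k : ℤ, k ≤ 0 → c.coeff k = 0 := by
  have hb : BddBelow (Function.support fun m : ℤ => if 0 < m then x.coeff m else 0) := by
    refine ⟨0, fun m hm => ?_⟩
    by_contra h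
    exact hm (if_neg (by omega))
  refine ⟨HahnSeries.ofSuppBddBelow _ hb, fun k hk => ?_, fun k hk => ?_⟩
  · rw [HahnSeries.coeff_ofSuppBddBelow, if_pos hk]
  · rw [HahnSeries.coeff_ofSuppBddBelow, if_neg (by omega)]

theorem mem_ValRing_of (x : LaurentSeries (ZMod p)) (h : ∀ k : ℤ, k < 0 → x.coeff k = 0) :
    x ∈ ValRing p := by
  have h1 : ∃ z, z ∈ OO p ∧ HahnSeries.single (0 : ℤ) (1 : ZMod p) * z + 0 = x := by
    rw [Pool.Agent.Y697.UF.ball_single]
    intro k hk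
    rw [h k hk]
    rfl
  obtain ⟨z, hz, h2⟩ := h1
  rw [add_zero] at h2
  have h3 : (HahnSeries.single (0 : ℤ) (1 : ZMod p) : LaurentSeries (ZMod p)) = 1 := rfl
  rw [h3, one_mul] at h2
  rw [← h2]
  exact hz

/-- the near relation in one variable -/
theorem ball_NB (r : ℤ) (x x' : LaurentSeries (ZMod p)) (h : ∀ k < r, x.coeff k = x'.coeff k) :
    ∃ z ∈ ValRing p, x + HahnSeries.single r (1 : ZMod p) * z = x' := by
  obtain ⟨z, hz, h1⟩ := (Pool.Agent.Y697.UF.ball_single r x x').2 h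
  exact ⟨z, hz, by rw [← h1, add_comm]⟩

theorem NB_ball (r : ℤ) (x x' : LaurentSeries (ZMod p))
    (h : ∃ z ∈ ValRing p, x + HahnSeries.single r (1 : ZMod p) * z = x') :
    ∀ k < r, x.coeff k = x'.coeff k := by
  obtain ⟨z, hz, h1⟩ := h
  exact (Pool.Agent.Y697.UF.ball_single r x x').1 ⟨z, hz, by rw [← h1, add_comm]⟩

theorem ball_of_NB (b : LaurentSeries (ZMod p)) (hb : b ≠ 0) : ∃ r : ℤ,
    ∀ x x' : LaurentSeries (ZMod p), (∀ k < r, x.coeff k = x'.coeff k) →
      ∃ z ∈ ValRing p, x + b * z = x' := by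
  obtain ⟨r, hr⟩ := near_of_NB (n := 1) hb
  refine ⟨r, fun x x' h => ?_⟩
  obtain ⟨z, hz, h1⟩ := hr (vec x) (vec x') (fun _ => h) 0
  exact ⟨z, hz, by rw [add_comm]; exact h1⟩

theorem closed_PosIn (C : Set (LaurentSeries (ZMod p))) (hC : ClosedSet p C)
    (h0 : ∀ c ∈ C, ∀ k : ℤ, k ≤ 0 → c.coeff k = 0) : ClosedSet p (PosIn C) := by
  intro x hx
  obtain ⟨c, hc1, hc2⟩ := exists_pos x
  have hc : c ∉ C := fun h => hx ⟨c, h, fun k hk => (hc1 k hk).symm⟩
  obtain ⟨b, hb, h1⟩ := hC c hc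
  obtain ⟨r, hr⟩ := ball_of_NB b hb
  refine ⟨HahnSeries.single r (1 : ZMod p), single_ne r, ?_⟩
  rintro y ⟨d, hd, h2⟩ h3
  have h4 := NB_ball r x y h3
  refine h1 d hd (hr c d fun k hk => ?_)
  by_cases hk0 : 0 < k
  · rw [hc1 k hk0, h4 k hk, h2 k hk0]
  · rw [hc2 k (not_lt.1 hk0), h0 d hd k (not_lt.1 hk0)]

/-- the series without positive exponents -/
def Neg (p : ℕ) [Fact p.Prime] : AddSubgroup (LaurentSeries (ZMod p)) where
  carrier := {x | ∀ k : ℤ, 0 < k → x.coeff k = 0}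
  zero_mem' := fun _ _ => rfl
  add_mem' := fun {a b} ha hb k hk => by rw [HahnSeries.coeff_add, ha k hk, hb k hk, add_zero]
  neg_mem' := fun {a} ha k hk => by rw [HahnSeries.coeff_neg, ha k hk, neg_zero]

theorem neg_cocompact (x : LaurentSeries (ZMod p)) :
    ∃ a ∈ Neg p, ∃ z ∈ ValRing p, a + 1 * z = x := by
  obtain ⟨c, hc1, hc2⟩ := exists_pos x
  refine ⟨x - c, fun k hk => ?_, c, mem_ValRing_of c fun k hk => hc2 k hk.le, ?_⟩
  · rw [HahnSeries.coeff_sub, hc1 k hk, sub_self]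
  · rw [one_mul, sub_add_cancel]

/-- closed groups of finite index are open -/
theorem open_of_index (S : AddSubgroup (Fin 1 → LaurentSeries (ZMod p))) (hcl : Cl S = S)
    (hi : S.index ≠ 0) : ∃ r : ℤ, ∀ z : Fin 1 → LaurentSeries (ZMod p),
      (∀ i, ∀ k < r, (z i).coeff k = 0) → z ∈ S := by
  have hfin := ann_finite S hi
  have h1 : ∀ y : Fin 1 → LaurentSeries (ZMod p), ∃ N : ℤ, ∀ i, ∀ k ≤ N, (y i).coeff k = 0 :=
    exists_low'
  choose N hN using h1
  obtain ⟨M, hM⟩ := (hfin.image N).bddBelow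
  refine ⟨-M, fun z hz => ?_⟩
  rw [← gn_eq_ann S hcl]
  intro y hy
  rw [pr_comm]
  exact pr_far (-M) z y hz fun i k hk => hN y i k (by
    have := hM ⟨y, hy, rfl⟩
    omega)

/-- the field with a predicate for `PosIn C`, `C` closed and not open, is undecidable -/
theorem posIn (C : Set (LaurentSeries (ZMod p))) (hC : ClosedSet p C)
    (h0 : ∀ c ∈ C, ∀ k : ℤ, k ≤ 0 → c.coeff k = 0)
    (hno : ¬ ∀ x ∈ C, ∃ b : LaurentSeries (ZMod p), b ≠ 0 ∧ ∀ y, (∀ k : ℤ, k ≤ 0 → y.coeff k = 0) →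
      (∃ z ∈ ValRing p, x + b * z = y) → y ∈ C) :
    Arith p (PosIn C) ∧ ¬ REPred (InTh p (PosIn C)) := by
  refine (expansion_periodic (PosIn C) (closed_PosIn C hC h0) (Neg p) 1 neg_cocompact ?_).2 ?_
  · rintro x ⟨c, hc, h1⟩ b hb
    refine ⟨c, hc, fun k hk => ?_⟩
    rw [HahnSeries.coeff_add, hb k hk, add_zero, h1 k hk]
  · rintro ⟨A, hA, h1⟩
    refine hno fun x hx => ?_
    have hcl := cl_St _ (closedN_vset _ (closed_PosIn C hC h0))
    obtain ⟨r, hr⟩ := open_of_index _ hcl (index_of_sub _ A hA h1)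
    refine ⟨HahnSeries.single r (1 : ZMod p), single_ne r, fun y hy hz => ?_⟩
    have h2 := NB_ball r x y hz
    have h3 : vec (y - x) ∈ St (vset (PosIn C)) := hr _ fun i k hk => by
      change (y - x).coeff k = 0
      rw [HahnSeries.coeff_sub, h2 k hk, sub_self]
    have h4 := (st_vset _ _).1 h3 x ⟨x, hx, fun _ _ => rfl⟩
    rw [add_sub_cancel] at h4
    obtain ⟨c, hc, h5⟩ := h4
    have h6 : y = c := by
      ext k
      by_cases hk : 0 < k
      · exact h5 k hk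
      · rw [hy k (not_lt.1 hk), h0 c hc k (not_lt.1 hk)]
    rwa [h6]

end Pool.Agent.N606.FP
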