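import Pool.Agent.N606.FP.Per

/-! # Expansions by closed periodic sets -/

set_option autoImplicit false

namespace Pool.Agent.N606.FP

open Function
open Pool.Agent.Y924.EL
open Pool.Agent.Y924.UF
open Pool.Agent.R794.FP (NB single_ne near_of_NB near_single ovr exs ands sat_exs sat_ands)
open Pool.Agent.Results.MP_db9079_lc.UniformFiniteness
open Pool.Agent.Results.MP_db9079_lc.LocallyFiniteValues

/-! ## finite unions of translates -/

def og (i : ℕ) : ℕ := 2 * i + 1

theorem og_inj : Injective og := by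
  intro i j h
  unfold og at h
  omega

/-- the union of the translates by `x_2, x_4, ..., x_(2 k)` of the set defined by `ψ` -/
def trF (k : ℕ) (ψ : Fm) : Fm :=
  .neg (ands ((List.range k).map fun j => .neg (.ex 1 (.and (.add 1 (2 * j + 2) 0) (ren og ψ)))))

section

variable {p : ℕ} [Fact p.Prime]

/-- parameters: the translations at the even places, the parameters of `ψ` at the odd places -/
def parT (l : List (LaurentSeries (ZMod p))) (w : ℕ → LaurentSeries (ZMod p)) (m : ℕ) :
    LaurentSeries (ZMod p) := if m % 2 = 0 then l.getD (m / 2 - 1) 0 else w (m / 2)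

theorem dfn_trF (P : Set (LaurentSeries (ZMod p))) (ψ : Fm) (w : ℕ → LaurentSeries (ZMod p))
    (l : List (LaurentSeries (ZMod p))) :
    Dfn p P (trF l.length ψ) (parT l w) = {x | ∃ r ∈ l, x - r ∈ Dfn p P ψ w} := by
  ext x
  have key : ∀ j, Sat P (.ex 1 (.and (.add 1 (2 * j + 2) 0) (ren og ψ)))
      (update (parT l w) 0 x) ↔ x - l.getD j 0 ∈ Dfn p P ψ w := by
    intro j
    have h1 : ∀ a, (update (update (parT l w) 0 x) 1 a) ∘ og = update w 0 a := by
      intro a
      funext i
      simp only [comp_apply, og]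
      by_cases hi : i = 0
      · subst hi
        simp
      · rw [update_of_ne (by omega), update_of_ne (by omega), update_of_ne hi, parT,
          if_neg (by omega)]
        congr 1
        omega
    have h2 : ∀ a, update (update (parT l w) 0 x) 1 a (2 * j + 2) = l.getD j 0 := by
      intro a
      rw [update_of_ne (by omega), update_of_ne (by omega), parT, if_pos (by omega)]
      congr 1
      omega
    have h3 : ∀ a, update (update (parT l w) 0 x) 1 a 0 = x := by
      intro a
      rw [update_of_ne (by omega), update_self]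
    have h4 : ∀ a, update (update (parT l w) 0 x) 1 a 1 = a := fun a => update_self _ _ _
    simp only [Sat]
    constructor
    · rintro ⟨a, ha, h5⟩
      rw [h2, h3, h4] at ha
      rw [Pool.Agent.Y410.UF.sat_ren P og_inj, h1] at h5
      have h6 : x - l.getD j 0 = a := by
        rw [← ha, add_sub_cancel_right]
      rw [h6]
      exact h5
    · intro h
      refine ⟨x - l.getD j 0, ?_, ?_⟩
      · rw [h2, h3, h4, sub_add_cancel]
      · rw [Pool.Agent.Y410.UF.sat_ren P og_inj, h1]
        exact h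
  change Sat P (trF l.length ψ) (update (parT l w) 0 x) ↔ _
  rw [trF, Sat, sat_ands, Set.mem_ofPred_eq]
  simp only [List.mem_map, List.mem_range]
  push Not
  constructor
  · rintro ⟨_, ⟨j, hj, rfl⟩, h⟩
    rw [Sat, not_not, key, List.getD_eq_getElem _ _ hj] at h
    exact ⟨_, List.getElem_mem hj, h⟩
  · rintro ⟨r, hr, h⟩
    obtain ⟨j, hj, rfl⟩ := List.mem_iff_getElem.1 hr
    refine ⟨_, ⟨j, hj, rfl⟩, ?_⟩
    rw [Sat, not_not, key, List.getD_eq_getElem _ _ hj]
    exact h

/-- a set as a set of vectors -/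
def vset (X : Set (LaurentSeries (ZMod p))) : Set (Fin 1 → LaurentSeries (ZMod p)) :=
  {x | x 0 ∈ X}

theorem vec_zero (x : Fin 1 → LaurentSeries (ZMod p)) : vec (x 0) = x := by
  funext i
  rw [Subsingleton.elim i 0]
  rfl

theorem gn_eq_ann (S : AddSubgroup (Fin 1 → LaurentSeries (ZMod p))) (h : Cl S = S) :
    Ann (Ann (S : Set (Fin 1 → LaurentSeries (ZMod p))) :
      Set (Fin 1 → LaurentSeries (ZMod p))) = S := by
  rw [ann_ann, AddSubgroup.closure_eq, h]

/-- closed sets with a stabilizer of finite index are definable -/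
theorem definable (X : Set (LaurentSeries (ZMod p))) (hcl : Cl (St (vset X)) = St (vset X))
    (hi : (St (vset X)).index ≠ 0) : ∃ (φ : Fm) (v : ℕ → LaurentSeries (ZMod p)),
      ∀ P : Set (LaurentSeries (ZMod p)), Dfn p P φ v = X := by
  obtain ⟨φ, v, h1⟩ := DS_fin 1 _ (ann_finite (St (vset X)) hi)
  have h2 : ∀ P : Set (LaurentSeries (ZMod p)), DS P (annF p 1 φ) 1 (parA 1 (tt p) v) =
      (St (vset X) : Set (Fin 1 → LaurentSeries (ZMod p))) := by
    intro P
    rw [DS_annF, h1 P, gn_eq_ann _ hcl]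
  -- representatives
  have hA : (St (vset X)).FiniteIndex := ⟨hi⟩
  have hf1 : Finite ((Fin 1 → LaurentSeries (ZMod p)) ⧸ St (vset X)) :=
    AddSubgroup.finite_quotient_of_finiteIndex
  obtain ⟨R, hR, hR1, hR2⟩ : ∃ R : Set (LaurentSeries (ZMod p)), R.Finite ∧ R ⊆ X ∧
      ∀ x ∈ X, ∃ r ∈ R, vec (x - r) ∈ St (vset X) := by
    classical
    refine ⟨Set.range fun q : {q : (Fin 1 → LaurentSeries (ZMod p)) ⧸ St (vset X) //
      ∃ x ∈ X, QuotientAddGroup.mk (vec x) = q} => q.2.choose, Set.finite_range _, ?_, ?_⟩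
    · rintro _ ⟨q, rfl⟩
      exact q.2.choose_spec.1
    · intro x hx
      let q : {q : (Fin 1 → LaurentSeries (ZMod p)) ⧸ St (vset X) //
        ∃ x ∈ X, QuotientAddGroup.mk (vec x) = q} := ⟨QuotientAddGroup.mk (vec x), x, hx, rfl⟩
      refine ⟨q.2.choose, ⟨q, rfl⟩, ?_⟩
      have h3 : (QuotientAddGroup.mk (vec q.2.choose) :
          (Fin 1 → LaurentSeries (ZMod p)) ⧸ St (vset X)) = QuotientAddGroup.mk (vec x) :=
        q.2.choose_spec.2
      have h4 := QuotientAddGroup.eq.1 h3
      have h5 : vec (x - q.2.choose) = -vec q.2.choose + vec x := by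
        funext i
        simp [vec]
        ring
      rw [h5]
      exact h4
  refine ⟨trF hR.toFinset.toList.length (annF p 1 φ), parT hR.toFinset.toList (parA 1 (tt p) v),
    fun P => ?_⟩
  rw [dfn_trF]
  ext x
  rw [Set.mem_ofPred_eq]
  constructor
  · rintro ⟨r, hr, h3⟩
    rw [dfn_iff, h2 P] at h3
    have hr' : r ∈ R := by simpa using hr
    have h4 := h3 (vec r) (hR1 hr')
    have h5 : (vec r + vec (x - r)) 0 = x := by
      simp [vec]
    have h6 : (vec r + vec (x - r)) 0 ∈ X := h4
    rwa [h5] at h6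
  · intro hx
    obtain ⟨r, hr, h3⟩ := hR2 x hx
    refine ⟨r, by simpa using hr, ?_⟩
    rw [dfn_iff, h2 P]
    exact h3

theorem closedN_vset (X : Set (LaurentSeries (ZMod p))) (h : ClosedSet p X) :
    ClosedN (vset X) := by
  intro x hx
  obtain ⟨b, hb, h1⟩ := h (x 0) hx
  refine ⟨b, hb, fun x' hx' hmem => h1 (x' 0) hmem ?_⟩
  obtain ⟨z, hz, h2⟩ := hx' 0
  exact ⟨z, hz, h2⟩

theorem st_vset (X : Set (LaurentSeries (ZMod p))) (a : LaurentSeries (ZMod p)) :
    vec a ∈ St (vset X) ↔ ∀ x ∈ X, x + a ∈ X := by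
  constructor
  · intro h x hx
    exact h (vec x) hx
  · intro h x hx
    exact h (x 0) hx

/-- the additive isomorphism -/
def vecHom : LaurentSeries (ZMod p) ≃+ (Fin 1 → LaurentSeries (ZMod p)) where
  toFun := vec
  invFun := fun x => x 0
  left_inv := fun _ => rfl
  right_inv := fun x => vec_zero x
  map_add' := fun _ _ => rfl

theorem index_of_sub (X : Set (LaurentSeries (ZMod p))) (A : AddSubgroup (LaurentSeries (ZMod p)))
    (hA : A.index ≠ 0) (h : ∀ x ∈ X, ∀ a ∈ A, x + a ∈ X) : (St (vset X)).index ≠ 0 := by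
  have h1 : (A.map (vecHom (p := p)).toAddMonoidHom).index ≠ 0 := by
    have := AddSubgroup.index_map_equiv A (vecHom (p := p))
    rw [← this] at hA
    exact hA
  have h2 : A.map (vecHom (p := p)).toAddMonoidHom ≤ St (vset X) := by
    rintro _ ⟨a, ha, rfl⟩
    exact (st_vset X a).2 fun x hx => h x hx a ha
  intro h3
  have h4 := AddSubgroup.index_dvd_of_le h2
  rw [h3, zero_dvd_iff] at h4
  exact h1 h4

/-- the dichotomy for expansions by closed periodic sets -/
theorem expansion_periodic (X : Set (LaurentSeries (ZMod p))) (hX : ClosedSet p X)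
    (B : AddSubgroup (LaurentSeries (ZMod p))) (c : LaurentSeries (ZMod p))
    (hB : ∀ x, ∃ a ∈ B, ∃ z ∈ ValRing p, a + c * z = x) (hXB : ∀ x ∈ X, ∀ b ∈ B, x + b ∈ X) :
    ((∃ A : AddSubgroup (LaurentSeries (ZMod p)), A.index ≠ 0 ∧ ∀ x ∈ X, ∀ a ∈ A, x + a ∈ X) →
      ∃ (φ : Fm) (v : ℕ → LaurentSeries (ZMod p)), ∀ P : Set (LaurentSeries (ZMod p)),
        Dfn p P φ v = X) ∧
    ((¬ ∃ A : AddSubgroup (LaurentSeries (ZMod p)), A.index ≠ 0 ∧ ∀ x ∈ X, ∀ a ∈ A, x + a ∈ X) →
      Arith p X ∧ ¬ REPred (InTh p X)) := by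
  have hcl := cl_St _ (closedN_vset X hX)
  constructor
  · rintro ⟨A, hA, h⟩
    exact definable X hcl (index_of_sub X A hA h)
  · intro hno
    have hidx : (St (vset X)).index = 0 := by
      by_contra hne
      refine hno ⟨(St (vset X)).comap (vecHom (p := p)).toAddMonoidHom, ?_, ?_⟩
      · rw [AddSubgroup.index_comap_of_surjective _ (vecHom (p := p)).surjective]
        exact hne
      · intro x hx a ha
        exact (st_vset X a).1 ha x hx
    have hnot : ¬ LFTame p X := by
      intro hT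
      obtain ⟨N, hN⟩ := periodic X hT (.val 0) 1
      have h0 : DSet p X (.val 0) 1 0 = vset X := by
        ext x
        change Sat X (.val 0) (ovx x 0) ↔ _
        rfl
      have h1 := hN 0
      rw [h0] at h1
      refine (h1 (closedN_vset X hX) ⟨B.map (vecHom (p := p)).toAddMonoidHom, c, ?_, ?_⟩).2.1 hidx
      · intro x
        obtain ⟨a, ha, z, hz, h2⟩ := hB (x 0)
        refine ⟨vec a, ⟨a, ha, rfl⟩, fun i => ?_⟩
        rw [Subsingleton.elim i 0]
        exact ⟨z, hz, h2⟩
      · rintro x hx _ ⟨b, hb, rfl⟩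
        exact hXB _ hx b hb
    exact ⟨(dichotomy p X).resolve_left fun ht => hnot (lftame_of_tame X ht),
      fun hr => hnot (lftame_of_tame X (tame p X hr))⟩

end

end Pool.Agent.N606.FP
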