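import Pool.Agent.N606.FP.Ex

/-! # Periodic definable functions -/

set_option autoImplicit false

namespace Pool.Agent.N606.FP

open Function
open Pool.Agent.Y924.EL
open Pool.Agent.Y924.UF
open Pool.Agent.R794.FP (NB single_ne near_of_NB near_single)
open Pool.Agent.Results.MP_db9079_lc.UniformFiniteness
open Pool.Agent.Results.MP_db9079_lc.LocallyFiniteValues

/-- disjoint cosets of groups of index at most `N` -/
theorem card_cosets {Q ι : Type} [AddCommGroup Q] [Finite Q] (T : Finset ι) (x : ι → Q)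
    (G : ι → AddSubgroup Q) (N : ℕ) (hN : ∀ i ∈ T, (G i).index ≤ N)
    (hd : ∀ i ∈ T, ∀ j ∈ T, ∀ g ∈ G i, ∀ h ∈ G j, x i + g = x j + h → i = j) : T.card ≤ N := by
  classical
  have hfin : ∀ i, Finite ↥(G i) := fun i => Subtype.finite
  have h1 : ∀ i ∈ T, Nat.card Q ≤ Nat.card ↥(G i) * N := by
    intro i hi
    rw [← (G i).card_mul_index]
    exact Nat.mul_le_mul_left _ (hN i hi)
  have h2 : ∑ i ∈ T, Nat.card ↥(G i) ≤ Nat.card Q := by
    have h3 : Nat.card (Σ i : ↥T, ↥(G i)) ≤ Nat.card Q := by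
      refine Nat.card_le_card_of_injective (fun s => x s.1 + s.2) ?_
      rintro ⟨⟨i, hi⟩, g, hg⟩ ⟨⟨j, hj⟩, h, hh⟩ heq
      obtain rfl := hd i hi j hj g hg h hh heq
      have : g = h := add_left_cancel heq
      subst this
      rfl
    rw [Nat.card_sigma] at h3
    rwa [← Finset.sum_coe_sort T fun i => Nat.card ↥(G i)]
  have h4 : T.card * Nat.card Q ≤ N * Nat.card Q := by
    calc T.card * Nat.card Q = ∑ i ∈ T, Nat.card Q := by rw [Finset.sum_const, smul_eq_mul]
      _ ≤ ∑ i ∈ T, Nat.card ↥(G i) * N := Finset.sum_le_sum h1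
      _ = (∑ i ∈ T, Nat.card ↥(G i)) * N := (Finset.sum_mul _ _ _).symm
      _ ≤ Nat.card Q * N := Nat.mul_le_mul_right _ h2
      _ = N * Nat.card Q := mul_comm _ _
  exact Nat.le_of_mul_le_mul_right h4 Nat.card_pos

variable {p : ℕ} [Fact p.Prime]

/-- definable periodic functions with closed fibres have at most `N` values -/
theorem periodic_fun (P : Set (LaurentSeries (ZMod p))) (hP : LFTame p P) (φ : Fm) (n m : ℕ) :
    ∃ N : ℕ, ∀ v : ℕ → LaurentSeries (ZMod p),
      (∀ x y y', DRel p P φ n m v x y → DRel p P φ n m v x y' → y = y') →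
      (∀ y, ClosedN {x | DRel p P φ n m v x y}) →
      (∃ (B : AddSubgroup (Fin n → LaurentSeries (ZMod p))) (c : LaurentSeries (ZMod p)),
        (∀ x, ∃ a ∈ B, Near p c a x) ∧
          ∀ x y, DRel p P φ n m v x y → ∀ b ∈ B, DRel p P φ n m v (x + b) y) →
      (Img p (DRel p P φ n m v)).Finite ∧ (Img p (DRel p P φ n m v)).ncard ≤ N := by
  classical
  obtain ⟨N, hN⟩ := periodic P hP φ n
  refine ⟨N, fun v hf hcl hB => ?_⟩
  obtain ⟨B, c, hc, hB⟩ := hB
  -- the fibres
  have h0 : ∀ y : Fin m → LaurentSeries (ZMod p), {x | DRel p P φ n m v x y} =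
      DSet p P φ n fun i => if h' : i - n < m then y ⟨i - n, h'⟩ else v i := fun _ => rfl
  have h1 : ∀ y : Fin m → LaurentSeries (ZMod p), (St {x | DRel p P φ n m v x y}).index ≠ 0 ∧
      (St {x | DRel p P φ n m v x y}).index ≤ N := by
    intro y
    have h2 := hN fun i => if h' : i - n < m then y ⟨i - n, h'⟩ else v i
    rw [← h0 y] at h2
    exact (h2 (hcl y) ⟨B, c, hc, fun x hx b hb => hB x y hx b hb⟩).2
  have key : ∀ T : Finset (Fin m → LaurentSeries (ZMod p)),
      (T : Set (Fin m → LaurentSeries (ZMod p))) ⊆ Img p (DRel p P φ n m v) → T.card ≤ N := by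
    intro T hT
    have hT' : ∀ y : Fin m → LaurentSeries (ZMod p), ∃ x : Fin n → LaurentSeries (ZMod p),
        y ∈ T → DRel p P φ n m v x y := by
      intro y
      by_cases hy : y ∈ T
      · obtain ⟨x, hx⟩ := hT hy
        exact ⟨x, fun _ => hx⟩
      · exact ⟨0, fun h => absurd h hy⟩
    choose x hx' using hT'
    let S : AddSubgroup (Fin n → LaurentSeries (ZMod p)) :=
      ⨅ y : ↥T, St {x | DRel p P φ n m v x y.1}
    have hS : S.FiniteIndex := by
      have h3 : ∀ y : ↥T, (St {x | DRel p P φ n m v x y.1}).FiniteIndex := fun y => ⟨(h1 y.1).1⟩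
      exact AddSubgroup.finiteIndex_iInf h3
    have hSle : ∀ y ∈ T, S ≤ St {x | DRel p P φ n m v x y} := fun y hy =>
      iInf_le (fun y : ↥T => St {x | DRel p P φ n m v x y.1}) ⟨y, hy⟩
    have hf1 : Finite ((Fin n → LaurentSeries (ZMod p)) ⧸ S) :=
      AddSubgroup.finite_quotient_of_finiteIndex
    refine card_cosets T (fun y => (QuotientAddGroup.mk (x y) :
      (Fin n → LaurentSeries (ZMod p)) ⧸ S))
      (fun y => (St {x | DRel p P φ n m v x y}).map (QuotientAddGroup.mk' S)) N ?_ ?_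
    · intro y hy
      have h4 : ((St {x | DRel p P φ n m v x y}).map (QuotientAddGroup.mk' S)).index =
          (St {x | DRel p P φ n m v x y}).index := by
        rw [AddSubgroup.index_map, QuotientAddGroup.ker_mk', sup_eq_left.2 (hSle y hy),
          AddMonoidHom.range_eq_top.2 (QuotientAddGroup.mk'_surjective S), AddSubgroup.index_top,
          mul_one]
      rw [h4]
      exact (h1 y).2
    · rintro y hy y' hy' _ ⟨g, hg, rfl⟩ _ ⟨h, hh, rfl⟩ heq
      have h5 : (QuotientAddGroup.mk (x y + g) : (Fin n → LaurentSeries (ZMod p)) ⧸ S) =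
          QuotientAddGroup.mk (x y' + h) := heq
      have h6 := QuotientAddGroup.eq.1 h5
      have h7 : DRel p P φ n m v (x y + g) y := hg _ (hx' y hy)
      have h8 : DRel p P φ n m v (x y' + h) y' := hh _ (hx' y' hy')
      have h9 := (hSle y hy) h6 _ h7
      have h10 : (x y + g) + (-(x y + g) + (x y' + h)) = x y' + h := by abel
      rw [h10] at h9
      exact hf _ _ _ h9 h8
  have hfin : (Img p (DRel p P φ n m v)).Finite := by
    by_contra hinf
    obtain ⟨T, hT1, hT2⟩ := Set.Infinite.exists_subset_card_eq hinf (N + 1)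
    have := key T hT1
    omega
  refine ⟨hfin, ?_⟩
  rw [Set.ncard_eq_toFinset_card _ hfin]
  exact key _ (by rw [Set.Finite.coe_toFinset])

end Pool.Agent.N606.FP
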