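import Pool.Agent.N606.FP.Top

/-! # Periodic definable sets -/

set_option autoImplicit false

namespace Pool.Agent.N606.FP

open Function
open Pool.Agent.Y924.EL
open Pool.Agent.Y924.UF
open Pool.Agent.R794.FP (NB single_ne near_of_NB near_single ovr exs ands sat_exs sat_ands)
open Pool.Agent.Results.MP_db9079_lc.UniformFiniteness
open Pool.Agent.Results.MP_db9079_lc.LocallyFiniteValues

/-! ## the formula of the stabilizer -/

/-- `x_i`, `i < n`, go to `4 i + 3`, the parameters to `4 i + 2` -/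
def ug (n i : ℕ) : ℕ := if i < n then 4 * i + 3 else 4 * i + 2

theorem ug_inj (n : ℕ) : Injective (ug n) := by
  intro i j h
  unfold ug at h
  split_ifs at h <;> omega

def zs (n : ℕ) : List ℕ := (List.range n).map fun i => 4 * i + 3

theorem mem_zs (n j : ℕ) : j ∈ zs n ↔ j % 4 = 3 ∧ j / 4 < n := by
  unfold zs
  simp only [List.mem_map, List.mem_range]
  constructor
  · rintro ⟨i, hi, rfl⟩
    omega
  · rintro ⟨h1, h2⟩
    exact ⟨j / 4, h2, by omega⟩

/-- `x_(4 i + 3) = x_(4 i + 1) + x_(4 i)` for `i < n`, and `φ` for the `x_(4 i + 3)` -/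
def sumIn (n : ℕ) (φ : Fm) : Fm :=
  exs (zs n) (.and (ands ((List.range n).map fun i => .add (4 * i + 1) (4 * i) (4 * i + 3)))
    (ren (ug n) φ))

theorem sat_sumIn {K : Type} [CommRing K] (O : Set K) (n : ℕ) (φ : Fm) (w : ℕ → K) :
    Sat O (sumIn n φ) w ↔
      Sat O φ (ovx (fun i : Fin n => w (4 * i + 1) + w (4 * i)) fun i => w (4 * i + 2)) := by
  have h1 : ∀ f : ℕ → K, ovr w f (zs n) ∘ ug n =
      ovx (fun i : Fin n => f (4 * i + 3)) fun i => w (4 * i + 2) := by
    intro f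
    funext i
    simp only [comp_apply, ovr, mem_zs, ug, ovx]
    by_cases h : i < n
    · have h2 : (4 * i + 3) % 4 = 3 ∧ (4 * i + 3) / 4 < n := by omega
      simp only [if_pos h, dif_pos h, if_pos h2]
    · have h2 : ¬ ((4 * i + 2) % 4 = 3 ∧ (4 * i + 2) / 4 < n) := by omega
      simp only [if_neg h, dif_neg h, if_neg h2]
  have h2 : ∀ (f : ℕ → K) (j : ℕ), j % 4 ≠ 3 → ovr w f (zs n) j = w j := by
    intro f j hj
    rw [ovr, if_neg]
    rw [mem_zs]
    omega
  have h3 : ∀ (f : ℕ → K) (i : ℕ), i < n → ovr w f (zs n) (4 * i + 3) = f (4 * i + 3) := by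
    intro f i hi
    rw [ovr, if_pos]
    rw [mem_zs]
    omega
  rw [sumIn, sat_exs]
  simp only [Sat, sat_ands, List.mem_map, List.mem_range]
  constructor
  · rintro ⟨f, hf, h4⟩
    rw [Pool.Agent.Y410.UF.sat_ren O (ug_inj n), h1] at h4
    have h5 : (fun i : Fin n => f (4 * i + 3)) = fun i : Fin n => w (4 * i + 1) + w (4 * i) := by
      funext i
      have h6 := hf _ ⟨i, i.2, rfl⟩
      simp only [Sat] at h6
      rw [h2 f _ (by omega), h2 f _ (by omega), h3 f _ i.2] at h6
      exact h6.symm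
    rwa [h5] at h4
  · intro h
    refine ⟨fun j => w (j - 2) + w (j - 3), ?_, ?_⟩
    · rintro _ ⟨i, hi, rfl⟩
      simp only [Sat]
      rw [h2 _ _ (by omega), h2 _ _ (by omega), h3 _ _ hi]
      rfl
    · rw [Pool.Agent.Y410.UF.sat_ren O (ug_inj n), h1]
      convert h using 3
      rfl

/-- the stabilizer -/
def stF (n : ℕ) (φ : Fm) : Fm :=
  ren (sg n) (.neg (exs (xs n) (.and (ren (tg n) φ) (.neg (sumIn n φ)))))

theorem sat_stF {K : Type} [CommRing K] (O : Set K) (n : ℕ) (φ : Fm) (t : K) (v : ℕ → K)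
    (y : Fin n → K) :
    Sat O (stF n φ) (ovx y (parA n t v)) ↔
      ∀ x : Fin n → K, Sat O φ (ovx x v) → Sat O φ (ovx (x + y) v) := by
  have hy : ∀ j, (ovx y (parA n t v) ∘ sg n) j =
      if h : j % 4 = 0 ∧ j / 4 < n then y ⟨j / 4, h.2⟩ else if j % 4 = 2 then v (j / 4) else t := by
    intro j
    simp only [comp_apply, sg, ovx]
    by_cases h : j % 4 = 0 ∧ j / 4 < n
    · simp [h]
    · have h1 : ¬ (n + j < n) := by omega
      simp only [if_neg h, dif_neg h, dif_neg h1, parA]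
      rw [show n + j - n = j by omega]
  have hv : ∀ (f : ℕ → K) (i : ℕ), ovr (ovx y (parA n t v) ∘ sg n) f (xs n) (4 * i + 2) = v i := by
    intro f i
    have h2 : ¬ (4 * i + 2 ∈ xs n) := by
      rw [mem_xs]
      omega
    rw [ovr, if_neg h2, hy, dif_neg (by omega), if_pos (by omega)]
    congr 1
    omega
  have h1 : ∀ f : ℕ → K, ovr (ovx y (parA n t v) ∘ sg n) f (xs n) ∘ tg n =
      ovx (fun i : Fin n => f (4 * i + 1)) v := by
    intro f
    funext i
    by_cases h : i < n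
    · have h2 : 4 * i + 1 ∈ xs n := by
        rw [mem_xs]
        omega
      simp only [comp_apply, tg, if_pos h, ovx, dif_pos h]
      rw [ovr, if_pos h2]
    · simp only [comp_apply, tg, if_neg h, ovx, dif_neg h]
      exact hv f i
  have h2 : ∀ f : ℕ → K, Sat O (sumIn n φ) (ovr (ovx y (parA n t v) ∘ sg n) f (xs n)) ↔
      Sat O φ (ovx ((fun i : Fin n => f (4 * i + 1)) + y) v) := by
    intro f
    rw [sat_sumIn]
    have e1 : (fun i : Fin n => ovr (ovx y (parA n t v) ∘ sg n) f (xs n) (4 * i + 1) +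
        ovr (ovx y (parA n t v) ∘ sg n) f (xs n) (4 * i)) =
        (fun i : Fin n => f (4 * i + 1)) + y := by
      funext i
      have h3 : 4 * (i : ℕ) + 1 ∈ xs n := by
        rw [mem_xs]
        have := i.2
        omega
      have h4 : ¬ (4 * (i : ℕ) ∈ xs n) := by
        rw [mem_xs]
        omega
      have h5 : (4 * (i : ℕ)) % 4 = 0 ∧ (4 * (i : ℕ)) / 4 < n := by
        have := i.2
        omega
      rw [ovr, if_pos h3, ovr, if_neg h4, hy, dif_pos h5, Pi.add_apply]
      congr 2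
      exact Fin.ext (by simp)
    have e2 : (fun i => ovr (ovx y (parA n t v) ∘ sg n) f (xs n) (4 * i + 2)) = v := by
      funext i
      exact hv f i
    rw [e1, e2]
  rw [stF, Pool.Agent.Y410.UF.sat_ren O (sg_inj n)]
  simp only [Sat, sat_exs]
  push Not
  constructor
  · intro h x hx
    have hx' : (fun i : Fin n => (fun j => if h : j / 4 < n then x ⟨j / 4, h⟩ else 0)
        (4 * (i : ℕ) + 1)) = x := by
      funext i
      have h4 : (4 * (i : ℕ) + 1) / 4 = i := by omega
      simp [h4]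
    have h3 := h (fun j => if h : j / 4 < n then x ⟨j / 4, h⟩ else 0) (by
      rw [Pool.Agent.Y410.UF.sat_ren O (tg_inj n), h1, hx']
      exact hx)
    rw [h2, hx'] at h3
    exact h3
  · intro h f hf
    rw [Pool.Agent.Y410.UF.sat_ren O (tg_inj n), h1] at hf
    rw [h2]
    exact h _ hf

section

variable {p : ℕ} [Fact p.Prime] {n : ℕ}

theorem char_smul (a : Fin n → LaurentSeries (ZMod p)) : p • a = 0 := by
  have hch : CharP (LaurentSeries (ZMod p)) p := Pool.Agent.Y15.UF.inst_char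
  funext i
  rw [Pi.smul_apply, Pi.zero_apply, nsmul_eq_mul, CharP.cast_eq_zero, zero_mul]

/-- the stabilizer -/
def St (X : Set (Fin n → LaurentSeries (ZMod p))) : AddSubgroup (Fin n → LaurentSeries (ZMod p)) where
  carrier := {a | ∀ x ∈ X, x + a ∈ X}
  zero_mem' := fun x hx => by rwa [add_zero]
  add_mem' := fun {a b} ha hb x hx => by
    rw [← add_assoc]
    exact hb _ (ha x hx)
  neg_mem' := fun {a} ha x hx => by
    have h1 : ∀ k : ℕ, x + k • a ∈ X := by
      intro k
      induction k with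
      | zero => rwa [zero_smul, add_zero]
      | succ k ih =>
        rw [succ_nsmul, ← add_assoc]
        exact ha _ ih
    have h2 : (p - 1) • a = -a := by
      refine eq_neg_of_add_eq_zero_left ?_
      rw [← succ_nsmul, Nat.sub_add_cancel (Fact.out : p.Prime).pos, char_smul]
    rw [← h2]
    exact h1 _

theorem mem_St (X : Set (Fin n → LaurentSeries (ZMod p))) (a : Fin n → LaurentSeries (ZMod p)) :
    a ∈ St X ↔ ∀ x ∈ X, x + a ∈ X := Iff.rfl

theorem DS_stF (P : Set (LaurentSeries (ZMod p))) (φ : Fm) (n : ℕ)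
    (v : ℕ → LaurentSeries (ZMod p)) :
    DS P (stF n φ) n (parA n (tt p) v) = (St (DS P φ n v) : Set (Fin n → LaurentSeries (ZMod p))) := by
  ext y
  change Sat P (stF n φ) (ovx y (parA n (tt p) v)) ↔ _
  rw [sat_stF]
  rfl

/-- closed sets -/
def ClosedN (X : Set (Fin n → LaurentSeries (ZMod p))) : Prop :=
  ∀ x ∉ X, ∃ b : LaurentSeries (ZMod p), b ≠ 0 ∧ ∀ x', Near p b x x' → x' ∉ X

theorem cl_St (X : Set (Fin n → LaurentSeries (ZMod p))) (hX : ClosedN X) : Cl (St X) = St X := by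
  refine le_antisymm ?_ ?_
  · intro a ha x hx
    by_contra hn
    obtain ⟨b, hb, h1⟩ := hX _ hn
    obtain ⟨r, hr⟩ := near_of_NB (n := n) hb
    obtain ⟨a', ha', h2⟩ := ha r
    refine h1 (x + a') ((near_eq b _ _).2 (hr _ _ fun i k hk => ?_)) (ha' x hx)
    simp only [Pi.add_apply, HahnSeries.coeff_add]
    rw [h2 i k hk]
  · intro a ha r
    exact ⟨a, ha, NB.rfl⟩

theorem gn_of_closed (A : AddSubgroup (Fin n → LaurentSeries (ZMod p))) (h : Cl A = A) :
    Gn (A : Set (Fin n → LaurentSeries (ZMod p))) = A := by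
  rw [Gn, AddSubgroup.closure_eq, h]

/-- periodic closed definable sets -/
theorem periodic (P : Set (LaurentSeries (ZMod p))) (hP : LFTame p P) (φ : Fm) (n : ℕ) :
    ∃ N : ℕ, ∀ v : ℕ → LaurentSeries (ZMod p), ClosedN (DSet p P φ n v) →
      (∃ (B : AddSubgroup (Fin n → LaurentSeries (ZMod p))) (c : LaurentSeries (ZMod p)),
        (∀ x, ∃ a ∈ B, Near p c a x) ∧ ∀ x ∈ DSet p P φ n v, ∀ b ∈ B, x + b ∈ DSet p P φ n v) →
      Cl (St (DSet p P φ n v)) = St (DSet p P φ n v) ∧
        (St (DSet p P φ n v)).index ≠ 0 ∧ (St (DSet p P φ n v)).index ≤ N := by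
  obtain ⟨N, hN⟩ := gtame P hP (stF n φ) n
  refine ⟨N, fun v hX => ?_⟩
  rintro ⟨B, c, h1, h2⟩
  have h3 := (hN (parA n (tt p) v)).2
  have h0 : DSet p P (stF n φ) n (parA n (tt p) v) =
      (St (DSet p P φ n v) : Set (Fin n → LaurentSeries (ZMod p))) := DS_stF P φ n v
  have hcl := cl_St _ hX
  rw [h0, gn_of_closed _ hcl] at h3
  exact ⟨hcl, h3 ⟨c, fun x => by
    obtain ⟨a, ha, h4⟩ := h1 x
    exact ⟨a, fun y hy => h2 y hy a ha, h4⟩⟩⟩

end

end Pool.Agent.N606.FP
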