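import Pool.Agent.N606.FP.Def
import Pool.Agent.Results.MP_db9079_lc.LocallyFiniteValues

/-! # Closed subgroups generated by definable sets: tameness -/

set_option autoImplicit false

namespace Pool.Agent.N606.FP

open Function
open Pool.Agent.Y924.EL
open Pool.Agent.Y924.UF
open Pool.Agent.R794.FP (NB single_ne near_of_NB near_single)
open Pool.Agent.Results.MP_db9079_lc.UniformFiniteness
open Pool.Agent.Results.MP_db9079_lc.LocallyFiniteValues

variable {p : ℕ} [Fact p.Prime] {n : ℕ}

/-- the closure of the subgroup generated by `X` -/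
noncomputable def Gn (X : Set (Fin n → LaurentSeries (ZMod p))) :
    AddSubgroup (Fin n → LaurentSeries (ZMod p)) := Cl (AddSubgroup.closure X)

theorem DSet_eq (P : Set (LaurentSeries (ZMod p))) (φ : Fm) (n : ℕ)
    (v : ℕ → LaurentSeries (ZMod p)) : DSet p P φ n v = DS P φ n v := rfl

theorem near_eq (b : LaurentSeries (ZMod p)) (x x' : Fin n → LaurentSeries (ZMod p)) :
    Near p b x x' ↔ Pool.Agent.R794.FP.Near b x x' := near_iff b x x'

theorem near_single' (r : ℤ) (x x' : Fin n → LaurentSeries (ZMod p)) :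
    Near p (HahnSeries.single r (1 : ZMod p)) x x' ↔ NB r x x' := by
  rw [near_eq, near_single]

/-- balls are comparable with those of radius `t ^ r` -/
theorem near_imp (b : LaurentSeries (ZMod p)) : ∃ r : ℤ, ∀ (x x' : Fin n → LaurentSeries (ZMod p)),
    Near p b x x' → NB r x x' := by
  obtain ⟨N, hN⟩ := exists_low b
  refine ⟨N + 1, fun x x' h i k hk => ?_⟩
  obtain ⟨z, ⟨s, rfl⟩, h2⟩ := h i
  rw [← h2, HahnSeries.coeff_add]
  have h3 : (b * algebraMap (PowerSeries (ZMod p)) (LaurentSeries (ZMod p)) s).coeff k = 0 := by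
    rw [HahnSeries.coeff_mul]
    refine Finset.sum_eq_zero fun ij hij => ?_
    rw [Finset.mem_antidiagonal] at hij
    obtain ⟨h4, h5, h6⟩ := hij
    rw [HahnSeries.mem_support] at h4 h5
    have h7 : N < ij.1 := by
      by_contra h
      exact h4 (hN _ (not_lt.1 h))
    have h8 : 0 ≤ ij.2 := by
      by_contra h
      refine h5 ?_
      have h9 : ij.2 < 0 := not_le.1 h
      change (HahnSeries.ofPowerSeries ℤ (ZMod p) s).coeff ij.2 = 0
      rw [HahnSeries.ofPowerSeries_apply]
      refine HahnSeries.embDomain_of_notMem_range ?_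
      rintro ⟨m, hm⟩
      simp at hm
      omega
    omega
  rw [h3, add_zero]

theorem mem_Cl_iff (G : AddSubgroup (Fin n → LaurentSeries (ZMod p)))
    (x : Fin n → LaurentSeries (ZMod p)) :
    x ∈ Cl G ↔ ∀ b : LaurentSeries (ZMod p), b ≠ 0 → ∃ a ∈ G, Near p b a x := by
  rw [mem_Cl]
  constructor
  · intro h b hb
    obtain ⟨r, hr⟩ := near_of_NB (n := n) hb
    obtain ⟨a, ha, h1⟩ := h r
    exact ⟨a, ha, (near_eq b a x).2 (hr a x h1)⟩
  · intro h r
    obtain ⟨a, ha, h1⟩ := h _ (single_ne r)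
    exact ⟨a, ha, (near_single' r a x).1 h1⟩

/-- the isolated points of a discrete group -/
theorem iso_of_disc (A : AddSubgroup (Fin n → LaurentSeries (ZMod p)))
    (b : LaurentSeries (ZMod p)) (hb : b ≠ 0) (h : ∀ a ∈ A, Near p b 0 a → a = 0) :
    Iso p (A : Set (Fin n → LaurentSeries (ZMod p))) = A := by
  ext x
  constructor
  · exact fun hx => hx.1
  · intro hx
    refine ⟨hx, b, hb, fun x' hx' h1 => ?_⟩
    have h2 : x' - x = 0 := by
      refine h _ (A.sub_mem hx' hx) fun i => ?_
      obtain ⟨z, hz, h3⟩ := h1 i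
      refine ⟨z, hz, ?_⟩
      rw [Pi.sub_apply, ← h3, Pi.zero_apply]
      ring
    exact sub_eq_zero.1 h2

/-- the bounds for definable discrete or cocompact groups -/
theorem gtame (P : Set (LaurentSeries (ZMod p))) (hP : LFTame p P) (φ : Fm) (n : ℕ) :
    ∃ N : ℕ, ∀ v : ℕ → LaurentSeries (ZMod p),
      ((∃ b : LaurentSeries (ZMod p), b ≠ 0 ∧ ∀ a ∈ Gn (DSet p P φ n v), Near p b 0 a → a = 0) →
        (Gn (DSet p P φ n v) : Set (Fin n → LaurentSeries (ZMod p))).Finite ∧
        (Gn (DSet p P φ n v) : Set (Fin n → LaurentSeries (ZMod p))).ncard ≤ N) ∧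
      ((∃ c : LaurentSeries (ZMod p), ∀ x, ∃ a ∈ Gn (DSet p P φ n v), Near p c a x) →
        (Gn (DSet p P φ n v)).index ≠ 0 ∧ (Gn (DSet p P φ n v)).index ≤ N) := by
  have hI := ((Pool.Agent.Results.MP_db9079_lc.LocallyFiniteValues.result p).2.1 P hP).2.2.1
  obtain ⟨N₁, h1⟩ := hI (annF p n (annF p n φ)) n
  obtain ⟨N₂, h2⟩ := hI (annF p n φ) n
  refine ⟨N₁ + p ^ N₂, fun v => ⟨?_, ?_⟩⟩
  · rintro ⟨b, hb, h3⟩
    have h4 := h1 (parA n (tt p) (parA n (tt p) v))
    rw [DSet_eq, DS_gen] at h4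
    have h5 : Iso p (Gn (DSet p P φ n v) : Set (Fin n → LaurentSeries (ZMod p))) =
        Gn (DSet p P φ n v) := iso_of_disc _ b hb h3
    change (Iso p (Gn (DSet p P φ n v) : Set (Fin n → LaurentSeries (ZMod p)))).Finite ∧
      (Iso p (Gn (DSet p P φ n v) : Set (Fin n → LaurentSeries (ZMod p)))).ncard ≤ N₁ ∧ _ at h4
    rw [h5] at h4
    exact ⟨h4.1, h4.2.1.trans (Nat.le_add_right _ _)⟩
  · rintro ⟨c, h3⟩
    obtain ⟨r, hr⟩ := near_imp (n := n) c
    have h4 := h2 (parA n (tt p) v)
    rw [DSet_eq, DS_annF] at h4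
    have h5 : Iso p (Ann (DS P φ n v) : Set (Fin n → LaurentSeries (ZMod p))) =
        Ann (DS P φ n v) := by
      refine iso_of_disc _ _ (single_ne (-r + 1)) fun y hy hy0 => ?_
      rw [near_single'] at hy0
      refine ann_discrete _ r (fun x => ?_) y hy fun i k hk => ?_
      · obtain ⟨a, ha, h6⟩ := h3 x
        exact ⟨a, ha, hr _ _ h6⟩
      · exact (hy0 i k (by omega)).symm
    rw [h5] at h4
    have h6 := index_le (DS P φ n v) N₂ h4.1 h4.2.1
    exact ⟨h6.1, h6.2.trans (Nat.le_add_left _ _)⟩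

/-- the number of elements of the annihilator of a group of finite index -/
theorem ann_card (A : AddSubgroup (Fin n → LaurentSeries (ZMod p))) (h : A.index ≠ 0) :
    (Ann (A : Set (Fin n → LaurentSeries (ZMod p))) :
      Set (Fin n → LaurentSeries (ZMod p))).ncard ≤ p ^ A.index := by
  have hA : A.FiniteIndex := ⟨h⟩
  have hf1 : Finite ((Fin n → LaurentSeries (ZMod p)) ⧸ A) :=
    AddSubgroup.finite_quotient_of_finiteIndex
  have hf2 : Finite (((Fin n → LaurentSeries (ZMod p)) ⧸ A) → ZMod p) := Pi.finite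
  have hinj : Injective (fun (y : ↥(Ann (A : Set (Fin n → LaurentSeries (ZMod p)))))
      (q : (Fin n → LaurentSeries (ZMod p)) ⧸ A) => pr q.out y.1) := by
    rintro ⟨y, hy⟩ ⟨y', hy'⟩ hyy
    have h1 : y - y' = 0 := by
      refine pr_nondeg _ fun x => ?_
      have h2 := congrFun hyy (QuotientAddGroup.mk x)
      simp only at h2
      set o : Fin n → LaurentSeries (ZMod p) :=
        (QuotientAddGroup.mk x : (Fin n → LaurentSeries (ZMod p)) ⧸ A).out with ho
      have h3 : x - o ∈ A := by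
        have h4 : (QuotientAddGroup.mk o : (Fin n → LaurentSeries (ZMod p)) ⧸ A) =
            QuotientAddGroup.mk x := by
          rw [ho]
          exact Quotient.out_eq' _
        have h5 := QuotientAddGroup.eq.1 h4
        rwa [add_comm, ← sub_eq_add_neg] at h5
      have h4 : pr (x - o) y = 0 := hy _ h3
      have h5 : pr (x - o) y' = 0 := hy' _ h3
      rw [pr_sub] at h4 h5
      rw [pr_comm, pr_sub, pr_comm y, pr_comm y', sub_eq_zero.1 h4, sub_eq_zero.1 h5, h2,
        sub_self]
    exact Subtype.ext (sub_eq_zero.1 h1)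
  calc (Ann (A : Set (Fin n → LaurentSeries (ZMod p))) :
        Set (Fin n → LaurentSeries (ZMod p))).ncard
      = Nat.card ↥(Ann (A : Set (Fin n → LaurentSeries (ZMod p)))) := rfl
    _ ≤ Nat.card (((Fin n → LaurentSeries (ZMod p)) ⧸ A) → ZMod p) :=
        Nat.card_le_card_of_injective _ hinj
    _ = p ^ A.index := by
        rw [Nat.card_fun, Nat.card_zmod]
        rfl

/-- `x` as a vector -/
def vec (x : LaurentSeries (ZMod p)) : Fin 1 → LaurentSeries (ZMod p) := fun _ => x

theorem dfn_iff (P : Set (LaurentSeries (ZMod p))) (φ : Fm) (v : ℕ → LaurentSeries (ZMod p))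
    (x : LaurentSeries (ZMod p)) : x ∈ Dfn p P φ v ↔ vec x ∈ DS P φ 1 v := by
  change Sat P φ (update v 0 x) ↔ Sat P φ (ovx (vec x) v)
  have h : update v 0 x = ovx (vec x) v := by
    funext i
    by_cases hi : i < 1
    · obtain rfl : i = 0 := by omega
      simp [ovx, vec]
    · rw [update_of_ne (by omega)]
      simp [ovx, hi]
  rw [h]

/-- uniform finiteness from uniform bounds for finite indices -/
theorem uniform_of_index (P : Set (LaurentSeries (ZMod p)))
    (h : ∀ φ : Fm, ∃ N : ℕ, ∀ v : ℕ → LaurentSeries (ZMod p), (Gn (DSet p P φ 1 v)).index ≤ N) :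
    Tame p P := by
  refine tame_of_uniform p P fun φ => ?_
  obtain ⟨N, hN⟩ := h (annF p 1 φ)
  refine ⟨p ^ N, fun v hfin => ?_⟩
  have h1 := hN (parA 1 (tt p) v)
  rw [DSet_eq, DS_annF] at h1
  have h2 : Gn (Ann (DS P φ 1 v) : Set (Fin 1 → LaurentSeries (ZMod p))) = Ann (DS P φ 1 v) := by
    rw [Gn, ← ann_ann]
    refine le_antisymm ?_ ?_
    · intro y hy x hx
      have h3 : x ∈ Ann (Ann (DS P φ 1 v) : Set (Fin 1 → LaurentSeries (ZMod p))) := by
        intro z hz
        rw [pr_comm]
        exact hz x hx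
      exact hy x h3
    · intro y hy x hx
      rw [pr_comm]
      exact hx y hy
  rw [h2] at h1
  -- the set is finite, so the index is not zero
  have hfin' : (DS P φ 1 v).Finite := by
    refine (hfin.image vec).subset ?_
    intro x hx
    refine ⟨x 0, (dfn_iff P φ v _).2 ?_, ?_⟩
    · have : vec (x 0) = x := by
        funext i
        rw [Subsingleton.elim i 0]
        rfl
      rw [this]
      exact hx
    · funext i
      rw [Subsingleton.elim i 0]
      rfl
  have hne : (Ann (DS P φ 1 v)).index ≠ 0 := by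
    have hf : Finite ↥(DS P φ 1 v) := hfin'
    have hf2 : Finite (↥(DS P φ 1 v) → ZMod p) := Pi.finite
    let θ : (Fin 1 → LaurentSeries (ZMod p)) →+ (↥(DS P φ 1 v) → ZMod p) :=
      { toFun := fun y x => pr x.1 y
        map_zero' := by funext x; rw [pr_comm]; exact pr_zero _
        map_add' := fun y y' => by
          funext x
          rw [pr_comm, pr_add, pr_comm y, pr_comm y']
          rfl }
    have hk : θ.ker = Ann (DS P φ 1 v) := by
      ext y
      rw [AddMonoidHom.mem_ker]
      constructor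
      · intro h3 x hx
        exact congrFun h3 ⟨x, hx⟩
      · intro h3
        funext x
        exact h3 x.1 x.2
    rw [← hk, AddSubgroup.index_ker]
    exact Nat.card_pos.ne'
  have h3 := ann_card _ hne
  have h4 : vec '' (Dfn p P φ v) ⊆
      (Ann (Ann (DS P φ 1 v) : Set (Fin 1 → LaurentSeries (ZMod p))) :
        Set (Fin 1 → LaurentSeries (ZMod p))) := by
    rintro _ ⟨x, hx, rfl⟩ z hz
    rw [pr_comm]
    exact hz _ ((dfn_iff P φ v x).1 hx)
  have hvec : Injective (vec (p := p)) := fun x y hxy => congrFun hxy 0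
  calc (Dfn p P φ v).ncard = (vec '' (Dfn p P φ v)).ncard := (Set.ncard_image_of_injective _ hvec).symm
    _ ≤ _ := Set.ncard_le_ncard h4 (ann_finite _ hne)
    _ ≤ _ := h3
    _ ≤ p ^ N := Nat.pow_le_pow_right (Fact.out : p.Prime).pos h1

end Pool.Agent.N606.FP
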